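import Pool.Agent.H85.Rm2

namespace Pool.Agent.Results.MP_fd6526_gt.Cube

open MeasureTheory Set Filter Metric Real Pool.Agent.H85.Rm1 Pool.Agent.H85.Rm2
open scoped RealInnerProductSpace FourierTransform Topology

variable {n : ℕ}

/-- The cube `[-1, 1]^n`. -/
def cube (n : ℕ) : Set (E n) := {x | ∀ i, |x i| ≤ 1}

lemma cube_ok : IsCompact (cube n) ∧ Convex ℝ (cube n) ∧ (interior (cube n)).Nonempty := by
  refine ⟨?_, ?_, 0, mem_interior_iff_mem_nhds.2 (mem_of_superset (closedBall_mem_nhds 0 one_pos)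
    fun x hx i => (PiLp.norm_apply_le x i).trans (by simpa using hx))⟩
  · convert (isCompact_univ_pi fun _ : Fin n => isCompact_Icc (a := (-1 : ℝ)) (b := 1)).image
      (PiLp.continuous_toLp 2 _)
    ext x
    exact ⟨fun h => ⟨x.ofLp, fun i _ => abs_le.1 (h i), rfl⟩, fun ⟨y, h, e⟩ i =>
      e ▸ abs_le.2 (h i trivial)⟩
  · intro x hx y hy a b ha hb e i
    refine (convex_Icc (-1 : ℝ) 1 (abs_le.1 (hx i)) (abs_le.1 (hy i)) ha hb e |> abs_le.2)

lemma sp_cube (w : E n) : ∏ i, (∫ t in (-1)..1, cos (2 * π * w i * t)) ^ 2 ≤ sp (cube n) w := by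
  have e : 𝓕 ((cube n).indicator fun _ => (1 : ℂ)) w = ∏ i, ∫ t, (Ioc (-1 : ℝ) 1).indicator
      (fun t => Complex.exp (-(2 * π * w i * t : ℝ) * Complex.I)) t := by
    simp_rw [integral_indicator measurableSet_Ioc, ← integral_Icc_eq_integral_Ioc,
      ← integral_indicator measurableSet_Icc]
    rw [fourier_eq', ← integral_fintype_prod_volume_eq_prod, ← (PiLp.volume_preserving_toLp
      (Fin n)).integral_comp (MeasurableEquiv.toLp 2 _).measurableEmbedding]
    refine integral_congr_ae (ae_of_all _ fun x => ?_)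
    by_cases h : WithLp.toLp 2 x ∈ cube n
    · have k : ∀ i, x i ∈ Icc (-1 : ℝ) 1 := fun i => abs_le.1 (h i)
      simp only [indicator_of_mem h, indicator_of_mem (k _), ← Complex.exp_sum, smul_eq_mul, mul_one, PiLp.inner_apply, ← Finset.sum_mul]
      congr 2
      simp [Finset.mul_sum, mul_assoc]
    · obtain ⟨i, hi⟩ := not_forall.1 h
      simp only [indicator_of_notMem h, smul_zero]
      exact (Finset.prod_eq_zero (Finset.mem_univ i) (indicator_of_notMem
        (show x i ∉ Icc (-1 : ℝ) 1 from fun k => hi (abs_le.2 k)) _)).symm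
  rw [sp, e, norm_prod, ← Finset.prod_pow]
  refine Finset.prod_le_prod (fun i _ => sq_nonneg _) fun i _ => sq_le_sq.2 ?_
  rw [abs_norm, integral_indicator measurableSet_Ioc, intervalIntegral.integral_of_le (by norm_num)]
  refine le_of_eq_of_le (congrArg _ ?_) (RCLike.abs_re_le_norm _)
  rw [← integral_re (Continuous.integrableOn_Ioc (by fun_prop)).integrable]
  simp [Complex.exp_re]

lemma tube (hn : 3 ≤ n) {q : ℝ} (q0 : 0 < q) (i₀ : Fin n) {x : E n} (h0 : 2 ≤ x i₀)
    (h1 : ∀ i, i ≠ i₀ → |x i| ≤ 1 / 2) (I : IntegrableOn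
      (fun s : ℝ => s ^ (q - 1) * s ^ n * sp (cube n) ((s / (2 * π)) • x)) (Ioi 0)) :
    (x i₀ ^ 2)⁻¹ ≤ ∫ s in Ioi 0, s ^ (q - 1) * s ^ n * sp (cube n) ((s / (2 * π)) • x) := by
  have a0 : 0 < x i₀ := by linarith
  have S : Ioc (1 : ℝ) 2 ⊆ Ioi 0 := fun s hs => one_pos.trans hs.1
  refine le_trans ?_ (setIntegral_mono_set I ?_ S.eventuallyLE)
  swap
  · filter_upwards [ae_restrict_mem measurableSet_Ioi] with s (hs : 0 < s) using
      mul_nonneg (by positivity) (sq_nonneg _)
  refine le_trans ?_ (setIntegral_mono_on (f := fun s => 4 / x i₀ ^ 2 * sin (s * x i₀) ^ 2)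
    (Continuous.integrableOn_Ioc (by fun_prop)) (I.mono_set S) measurableSet_Ioc fun s hs => ?_)
  · rw [← intervalIntegral.integral_of_le one_le_two, intervalIntegral.integral_const_mul,
      intervalIntegral.integral_comp_mul_right (sin · ^ 2) a0.ne', integral_sin_sq, smul_eq_mul,
      div_mul_eq_mul_div, inv_eq_one_div]
    gcongr
    rw [← mul_assoc, ← div_eq_mul_inv, div_mul_eq_mul_div, one_le_div a0]
    nlinarith [sin_sq_add_cos_sq (1 * x i₀), sin_sq_add_cos_sq (2 * x i₀),
      sq_nonneg (sin (1 * x i₀) + cos (1 * x i₀)), sq_nonneg (sin (2 * x i₀) - cos (2 * x i₀))]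
  have s0 : 0 < s := S hs
  have e : ∀ i, 2 * π * ((s / (2 * π)) • x) i = s * x i := fun i => by
    simp only [PiLp.smul_apply, smul_eq_mul]
    field_simp
  have b := sp_cube ((s / (2 * π)) • x)
  simp only [e] at b
  rw [← Finset.mul_prod_erase _ _ (Finset.mem_univ i₀)] at b
  have c : 1 ≤ ∏ i ∈ Finset.univ.erase i₀, (∫ t in (-1)..1, cos (s * x i * t)) ^ 2 := by
    refine Finset.one_le_prod fun i hi => one_le_pow₀ (le_trans ?_
      (intervalIntegral.integral_mono_on (f := fun _ => (1 / 2 : ℝ)) (by norm_num)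
        intervalIntegrable_const (Continuous.intervalIntegrable (by fun_prop) _ _) fun t ht => ?_))
    · norm_num
    have : |s * x i * t| ≤ 1 := by
      rw [abs_mul, abs_mul, abs_of_pos s0]
      exact mul_le_one₀ (by nlinarith [h1 i (Finset.ne_of_mem_erase hi), hs.2, abs_nonneg (x i)])
        (abs_nonneg _) (abs_le.2 ht)
    linarith [one_sub_sq_div_two_le_cos (x := s * x i * t), (sq_le_one_iff_abs_le_one _).2 this]
  rw [intervalIntegral.integral_comp_mul_left cos (mul_pos s0 a0).ne', integral_cos, mul_one,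
    mul_neg_one, sin_neg, smul_eq_mul] at b
  have f : s ^ 2 ≤ s ^ (q - 1) * s ^ n := by
    rw [← rpow_natCast, ← rpow_natCast, ← rpow_add s0]
    exact rpow_le_rpow_of_exponent_le hs.1.le (by
      have : (3 : ℝ) ≤ n := by exact_mod_cast hn
      push_cast
      linarith)
  refine le_trans (le_of_eq ?_) (mul_le_mul f ((le_mul_of_one_le_right (sq_nonneg _) c).trans b)
    (sq_nonneg _) (by positivity))
  field_simp
  ring

/-- For the cube, the Fourier transform of `Γ(p/2) ρ^p` off the origin is not a function whose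
restriction to the sphere is the radial function of a star-shaped set of finite volume. -/
theorem result (n : ℕ) (hn : 3 ≤ n) (p : ℝ) (hp : -1 < p) (hp0 : p < 0) :
    ∃ K : Set (E n), IsCompact K ∧ Convex ℝ K ∧ (interior K).Nonempty ∧
      ¬∃ (h : E n → ℝ) (M : Set (E n)), LocallyIntegrableOn h {0}ᶜ ∧
        (∀ t : ℝ, 0 < t → ∀ x, h (t • x) = t ^ (p - n) * h x) ∧
        (∀ φ : E n → ℝ, ContDiff ℝ (⊤ : ℕ∞) φ → HasCompactSupport φ → tsupport φ ⊆ {0}ᶜ →
          ∫ x, ((Gamma (p / 2) * rad (R p K) x ^ p : ℝ) : ℂ) * ft φ x = (∫ ξ, h ξ * φ ξ : ℝ)) ∧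
        StarConvex ℝ 0 M ∧ volume M < ⊤ ∧ ∀ u, ‖u‖ = 1 → rad M u = h u := by
  obtain ⟨hK, hc, hi⟩ := cube_ok (n := n)
  refine ⟨cube n, hK, hc, hi, fun ⟨h, M, hl, hh, he, hs, hv, hr⟩ => ?_⟩
  obtain ⟨q, rfl⟩ := neg_surjective p
  have q0 : 0 < q := by linarith
  have q1 : q < 1 := by linarith
  let i₀ : Fin n := ⟨0, by omega⟩
  have : Nontrivial (E n) := by
    have : Nonempty (Fin n) := ⟨i₀⟩
    infer_instance
  let U : Set (E n) := {x | 1 < ‖x‖}
  have oU : IsOpen U := isOpen_lt continuous_const continuous_norm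
  have sU : U ⊆ {0}ᶜ := fun x hx e => by simp_all [U, one_pos.not_gt]
  set m : E n → ℝ := fun ξ => ∫ s in Ioi 0, s ^ (q - 1) * s ^ n * sp (cube n) ((s / (2 * π)) • ξ)
  have I := (swap hK hc hi q0 q1 (o := U.indicator 1) (measurable_one.indicator oU.measurableSet)
    (B := 1) (fun x => by by_cases h : x ∈ U <;> simp [h]) fun x hx =>
      indicator_of_notMem (show x ∉ U from not_lt.2 hx) _).1
  have iU : IntegrableOn m U := (integrable_indicator_iff oU.measurableSet).1
    (I.integral_prod_right.congr (ae_of_all _ fun x => by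
      by_cases h : x ∈ U <;> simp [h, m]))
  set A := -Gamma (-q / 2) * ((volume.real (cube n))⁻¹ * q)
  have A0 : 0 < A := by
    have a := Gamma_pos_of_pos (s := -q / 2 + 1) (by linarith)
    rw [Gamma_add_one (by linarith)] at a
    exact mul_pos (by nlinarith) (mul_pos (inv_pos.2 (ENNReal.toReal_pos
      (Measure.measure_pos_of_nonempty_interior _ hi).ne' hK.measure_lt_top.ne)) q0)
  have Z := oU.ae_eq_zero_of_integral_contDiff_smul_eq_zero (f := fun x => h x - A * m x)
    ((hl.mono_set sU).sub (IntegrableOn.locallyIntegrableOn (iU.const_mul A))) fun φ h1 h2 h3 => by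
      have z : ∀ x, ‖x‖ ≤ 1 → φ x = 0 := fun x hx =>
        image_eq_zero_of_notMem_tsupport fun k => (h3 k).not_ge hx
      obtain ⟨B, hB⟩ := h1.continuous.bounded_above_of_compact_support h2
      obtain ⟨J, e⟩ := swap hK hc hi q0 q1 h1.continuous.measurable hB z
      have a := he φ h1 h2 (h3.trans sU)
      rw [integral_congr_ae (g := fun x => (-A : ℝ) * (((∫ r in Ioi 0, r ^ (-q - 1) *
        d (cube n) (r • x) : ℝ) : ℂ) * ft φ x)) ((Measure.ae_ne _ 0).mono fun x x0 => by
          simp only [radR hK hc hi q0 q1 x0, A]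
          push_cast
          ring), integral_const_mul, main hK hc hi q0 q1 h1 h2 (z 0 (by simp)), neg_mul, e,
        ← Complex.ofReal_mul, Complex.ofReal_inj, neg_mul_neg, ← integral_const_mul] at a
      simp_rw [smul_eq_mul, mul_sub, mul_comm (φ _), mul_assoc]
      rw [integral_sub ?_ ((J.integral_prod_right.congr (ae_of_all _ fun x =>
        integral_mul_const (φ x) _)).const_mul A), a, sub_self]
      exact (integrableOn_iff_integrable_of_support_subset ((Function.support_mul_subset_right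
        _ _).trans (subset_tsupport φ))).1 (((hl.mono_set (h3.trans sU)).integrableOn_isCompact
          h2).mul_continuousOn h1.continuous.continuousOn h2)
  obtain ⟨L, hL⟩ := (((tendsto_rpow_atTop q0).const_mul_atTop A0).eventually_gt_atTop 1).and
    (eventually_ge_atTop 2) |>.exists_forall_of_atTop
  let T : Set (E n) := {x | ∀ i, x i ∈ if i = i₀ then Ici L else Icc (-1 / 2) (1 / 2)}
  have vT : volume T = ⊤ := by
    have := (PiLp.volume_preserving_ofLp (Fin n)).measure_preimage (s := univ.pi fun i =>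
      if i = i₀ then Ici L else Icc (-1 / 2 : ℝ) (1 / 2)) (MeasurableSet.univ_pi fun i => by
        split_ifs <;> simp).nullMeasurableSet
    rw [volume_pi_pi] at this
    rw [show T = _ from Set.ext fun x => (mem_univ_pi (f := x.ofLp)).symm]
    refine this.trans ?_
    rw [← Finset.mul_prod_erase _ _ (Finset.mem_univ i₀), Finset.prod_eq_one fun i hi => by
      simp [Finset.ne_of_mem_erase hi]; norm_num]
    simp
  refine hv.not_ge (vT ▸ measure_mono_ae ?_)
  filter_upwards [Z, I.prod_left_ae] with x e j (hx : x ∈ T)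
  have x0 : L ≤ x i₀ := by simpa using hx i₀
  obtain ⟨b1, b2⟩ := hL _ x0
  have b3 : x i₀ ≤ ‖x‖ := (le_abs_self _).trans (PiLp.norm_apply_le x i₀)
  have xU : x ∈ U := lt_of_lt_of_le (by linarith) b3
  have n1 : 1 < ‖x‖ := xU
  have n0 : 0 < ‖x‖ := by linarith
  have b4 := tube hn q0 i₀ b2 (fun i hi => by simpa [hi, abs_le, neg_div] using hx i)
    (by simpa [xU, IntegrableOn] using j)
  have b5 : ‖x‖ < rad M (‖x‖⁻¹ • x) := by
    rw [hr _ (by simp [norm_smul, n0.ne']), hh _ (inv_pos.2 n0), sub_eq_zero.1 (e xU),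
      inv_rpow n0.le, ← rpow_neg n0.le]
    have c1 : ‖x‖ ^ (q + 2 + 1) ≤ ‖x‖ ^ (-(-q - n)) := rpow_le_rpow_of_exponent_le n1.le (by
      have : (3 : ℝ) ≤ n := by exact_mod_cast hn
      linarith)
    rw [rpow_add_one n0.ne', rpow_add n0, rpow_two] at c1
    have c2 : x i₀ ^ q * x i₀ ^ 2 ≤ ‖x‖ ^ q * ‖x‖ ^ 2 := by gcongr
    refine lt_of_lt_of_le ?_ (mul_le_mul ((mul_le_mul_of_nonneg_right c2 n0.le).trans c1)
      (mul_le_mul_of_nonneg_left b4 A0.le) (by positivity) (by positivity))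
    rw [show x i₀ ^ q * x i₀ ^ 2 * ‖x‖ * (A * (x i₀ ^ 2)⁻¹) = A * x i₀ ^ q * ‖x‖ by field_simp]
    exact lt_mul_of_one_lt_left n0 b1
  obtain ⟨t, ⟨-, t1⟩, t2⟩ := exists_lt_of_lt_csSup (nonempty_iff_ne_empty.2 fun k => by
    rw [rad, k, Real.sSup_empty] at b5
    linarith) b5
  have t0 : 0 < t := n0.trans t2
  change x ∈ M
  simpa [smul_smul, t0.ne', n0.ne', ← mul_assoc] using hs.smul_mem t1
    (show 0 ≤ ‖x‖ / t by positivity) ((div_le_one t0).2 t2.le)

end Pool.Agent.Results.MP_fd6526_gt.Cube
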