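import Pool.Agent.H85.Rm1

namespace Pool.Agent.Results.MP_fd6526_gt.Embed

open MeasureTheory Set Metric Real Pool.Agent.H85.Rm1
open scoped RealInnerProductSpace

/-- For every convex body `K` and `p ∈ (-1, 0)` the radial mean body `R_p K` embeds in `L^{-p}`. -/
theorem result (n : ℕ) (hn : 0 < n) (p : ℝ) (hp : -1 < p) (hp0 : p < 0) (K : Set (E n))
    (hK : IsCompact K) (hc : Convex ℝ K) (hi : (interior K).Nonempty) :
    ∃ μ : Measure (sphere (0 : E n) 1), IsFiniteMeasure μ ∧
      ∀ x : E n, x ≠ 0 → rad (R p K) x ^ p = ∫ u, |⟪x, (u : E n)⟫| ^ (-p) ∂μ := by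
  classical
  obtain ⟨q, rfl⟩ := neg_surjective p
  have q0 : 0 < q := by linarith
  have q1 : q < 1 := by linarith
  obtain ⟨c, c0, hb⟩ := radB hK hc hi q0 q1
  let N : E n → sphere (0 : E n) 1 := fun w => ⟨if w = 0 then EuclideanSpace.single ⟨0, hn⟩ 1 else
    ‖w‖⁻¹ • w, by split_ifs with h <;> simp [norm_smul, *]⟩
  have mN : Measurable N := (Measurable.ite (measurableSet_singleton 0) measurable_const
    (by fun_prop)).subtype_mk
  have hN : ∀ w x : E n, ‖w‖ ^ q * |⟪x, (N w : E n)⟫| ^ q = |⟪w, x⟫| ^ q := fun w x => by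
    rw [← mul_rpow (norm_nonneg _) (abs_nonneg _)]
    by_cases h : w = 0
    · simp [h]
    · simp [N, h, inner_smul_right, abs_mul, real_inner_comm]
  have s0 : ∀ w, 0 ≤ sp K w := fun w => sq_nonneg _
  set C := (volume.real K)⁻¹ * q * c
  have C0 : 0 ≤ C := by positivity
  have ms := (spec hK hc hi).1.aemeasurable
  have I : Integrable fun w : E n => C * (‖w‖ ^ q * sp K w) := by
    refine ((integrable_finsetSum Finset.univ fun i _ =>
      (hb (EuclideanSpace.single i 1)).1).mono' (AEMeasurable.aestronglyMeasurable (by fun_prop))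
        (ae_of_all _ fun w => ?_)).const_mul C
    rw [norm_of_nonneg (mul_nonneg (by positivity) (s0 w)), ← Finset.sum_mul]
    refine mul_le_mul_of_nonneg_right (le_trans (rpow_le_rpow (norm_nonneg _) (?_ :
      _ ≤ ∑ i, |⟪w, EuclideanSpace.single i 1⟫|) q0.le) ?_) (s0 w)
    · conv_lhs => rw [← (EuclideanSpace.basisFun (Fin n) ℝ).sum_repr w]
      exact (norm_sum_le _ _).trans (by simp [norm_smul, EuclideanSpace.inner_single_right])
    · induction (Finset.univ : Finset (Fin n)) using Finset.induction_on with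
      | empty => simp [q0.ne']
      | insert i s hi ih =>
        rw [Finset.sum_insert hi, Finset.sum_insert hi]
        exact (rpow_add_le_add_rpow (abs_nonneg _) (by positivity) q0.le q1.le).trans
          (add_le_add le_rfl ih)
  have := isFiniteMeasure_withDensity_ofReal I.2
  refine ⟨(volume.withDensity fun w => ENNReal.ofReal (C * (‖w‖ ^ q * sp K w))).map N,
    inferInstance, fun x x0 => ?_⟩
  rw [radR hK hc hi q0 q1 x0, (hb x).2, integral_map mN.aemeasurable
    (Measurable.aestronglyMeasurable (by fun_prop)), integral_withDensity_eq_integral_toReal_smul₀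
      (by fun_prop) (by simp), ← mul_assoc, ← integral_const_mul]
  refine integral_congr_ae (ae_of_all _ fun w => ?_)
  simp only [neg_neg, smul_eq_mul]
  rw [ENNReal.toReal_ofReal (mul_nonneg C0 (mul_nonneg (by positivity) (s0 w))), ← hN]
  ring

end Pool.Agent.Results.MP_fd6526_gt.Embed
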